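import Mathlib
import Pool.Agent.H85.FW.W0

/-!
# Comb2, first part: the sets of blocks which meet a set of points
-/

set_option autoImplicit false

namespace Pool.Agent.H85.FW

variable {N r : ℕ} {S : Finset (Fin N)} {Q Q' : Finset (Finset (Fin N))}

theorem cm_empty67 : cm r (∅ : Finset (Fin N)) = {∅} := by
  ext Q
  simp only [cm, Finset.mem_filter, Finset.mem_univ, true_and, Finset.mem_singleton]
  constructor
  · intro h
    rw [Finset.eq_empty_iff_forall_notMem]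
    intro B hB
    obtain ⟨-, a, ha, -⟩ := h.1 B hB
    exact absurd ha (Finset.notMem_empty a)
  · rintro rfl
    exact ⟨fun B hB => absurd hB (Finset.notMem_empty B), fun B hB => absurd hB (Finset.notMem_empty B),
      fun a ha => absurd ha (Finset.notMem_empty a)⟩

theorem cm_mem67 (hQ : Cm r S Q) {a : Fin N} {B : Finset (Fin N)} (hB : B ∈ Q) (ha : a ∈ B) :
    Cm r (insert a S) Q := by
  refine ⟨fun B' hB' => ?_, hQ.2.1, fun a' ha' => ?_⟩
  · obtain ⟨h1, b, hb, hb'⟩ := hQ.1 B' hB'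
    exact ⟨h1, b, Finset.mem_insert_of_mem hb, hb'⟩
  · rcases Finset.mem_insert.1 ha' with rfl | h
    · exact ⟨B, hB, ha⟩
    · exact hQ.2.2 a' h

theorem cm_insert67 (hQ : Cm r S Q) {a : Fin N} {B : Finset (Fin N)} (hB : B.card = r) (ha : a ∈ B)
    (hd : ∀ B' ∈ Q, Disjoint B B') : Cm r (insert a S) (insert B Q) := by
  refine ⟨fun B' hB' => ?_, fun B1 h1 B2 h2 h12 => ?_, fun a' ha' => ?_⟩
  · rcases Finset.mem_insert.1 hB' with rfl | h
    · exact ⟨hB, a, Finset.mem_insert_self a S, ha⟩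
    · obtain ⟨h1, b, hb, hb'⟩ := hQ.1 B' h
      exact ⟨h1, b, Finset.mem_insert_of_mem hb, hb'⟩
  · rcases Finset.mem_insert.1 h1 with e1 | h3
    · rcases Finset.mem_insert.1 h2 with e2 | h4
      · exact absurd (e1.trans e2.symm) h12
      · rw [e1]
        exact hd B2 h4
    · rcases Finset.mem_insert.1 h2 with e2 | h4
      · rw [e2]
        exact (hd B1 h3).symm
      · exact hQ.2.1 B1 h3 B2 h4 h12
  · rcases Finset.mem_insert.1 ha' with rfl | h
    · exact ⟨B, Finset.mem_insert_self B Q, ha⟩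
    · obtain ⟨B', hB', h'⟩ := hQ.2.2 a' h
      exact ⟨B', Finset.mem_insert_of_mem hB', h'⟩

theorem cm_ne67 (hQ : Cm r S Q) (hQ' : Cm r S Q') (h : Q ≠ Q') :
    ∃ (a : Fin N) (B B' : Finset (Fin N)), B ∈ Q ∧ B' ∈ Q' ∧ a ∈ B ∧ a ∈ B' ∧ B ≠ B' := by
  by_contra hcon
  push Not at hcon
  apply h
  apply Finset.Subset.antisymm
  · intro B hB
    obtain ⟨-, a, ha, haB⟩ := hQ.1 B hB
    obtain ⟨B', hB', haB'⟩ := hQ'.2.2 a ha
    rw [hcon a B B' hB hB' haB haB']
    exact hB'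
  · intro B' hB'
    obtain ⟨-, a, ha, haB'⟩ := hQ'.1 B' hB'
    obtain ⟨B, hB, haB⟩ := hQ.2.2 a ha
    rw [← hcon a B B' hB hB' haB haB']
    exact hB

end Pool.Agent.H85.FW
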