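import Mathlib
import Pool.Agent.H85.FW.Comb2
import Pool.Agent.H85.FW.Der2

/-!
# `pair_ne`: two different sets of blocks exclude each other
-/

set_option autoImplicit false

namespace Pool.Agent.H85.FW

open Pool.Agent.H3.Frg Pool.Agent.H3.Frg2 Pool.Agent.H67.FG Pool.Agent.H85.FG Pool.Agent.H93.RG

variable {N r m k L : ℕ} {S : Finset (Fin N)} {Q Q' : Finset (Finset (Fin N))}

theorem Bd_ps67 (hQ : Cm r S Q) : Bd (2 * S.card + 5) 3 0 (ps Q) := by
  have h := Bd_cj (∅ : Finset (Fin N)) Q.toList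
  have h1 : Q.toList.length = Q.card := Finset.length_toList Q
  have h2 := cm_qcard hQ
  exact Bd_mono h (by omega) le_rfl le_rfl

/-- scheme `(ψ → x) → ((ψ' → x') → ((x → ¬x') → (ψ → ¬ψ')))`, `cm_ne`, `cj_proj` -/
theorem pair_ne67 (hk : 40 ≤ k) (hQ : Cm r S Q) (hQ' : Cm r S Q') (h : Q ≠ Q') (hL : 100 * (S.card + 1) ≤ L) :
    Can m k (Count r N) (Bd L 8 3) (10 * (S.card + 1)) (.imp (ps Q) (.neg (ps Q'))) := by
  obtain ⟨a, B, B', hB, hB', haB, haB', hne⟩ := cm_ne hQ hQ' h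
  have l1 : Q.toList.length = Q.card := Finset.length_toList Q
  have l2 : Q'.toList.length = Q'.card := Finset.length_toList Q'
  have c1 := cm_qcard hQ
  have c2 := cm_qcard hQ'
  have b1 := Bd_ps67 hQ
  have b2 := Bd_ps67 hQ'
  have p1 : Can m k (Count r N) (Bd L 8 3) (2 * S.card) (.imp (ps Q) (.var B)) :=
    can_mono (cj_proj (m := m) (Hyp := Count r N) hk ∅ Q.toList (L := L) (by omega) (Finset.mem_toList.2 hB)) (by omega)
  have p2 : Can m k (Count r N) (Bd L 8 3) (2 * S.card) (.imp (ps Q') (.var B')) :=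
    can_mono (cj_proj (m := m) (Hyp := Count r N) hk ∅ Q'.toList (L := L) (by omega) (Finset.mem_toList.2 hB')) (by omega)
  have p3 : Can m k (Count r N) (Bd L 8 3) 1 (.imp (.var B) (.neg (.var B'))) :=
    can_hyp (Or.inl ⟨a, B, B', haB, haB', hne, rfl⟩)
      (Bd_mono (Bd_imp (Bd_var B) (Bd_neg (Bd_var B'))) (by omega) (by omega) (by omega))
  have e4 : Bd (4 * S.card + 12) 4 0 (.imp (ps Q) (.neg (ps Q'))) :=
    Bd_mono (Bd_imp b1 (Bd_neg b2)) (by omega) (by omega) (by omega)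
  have e3 : Bd (4 * S.card + 17) 4 0 (.imp (.imp (.var B) (.neg (.var B'))) (.imp (ps Q) (.neg (ps Q')))) :=
    Bd_mono (Bd_imp (Bd_imp (Bd_var B) (Bd_neg (Bd_var B'))) e4) (by omega) (by omega) (by omega)
  have e2 : Bd (6 * S.card + 25) 5 0 (.imp (.imp (ps Q') (.var B'))
      (.imp (.imp (.var B) (.neg (.var B'))) (.imp (ps Q) (.neg (ps Q'))))) :=
    Bd_mono (Bd_imp (Bd_imp b2 (Bd_var B')) e3) (by omega) (by omega) (by omega)
  have p4 : Can m k (Count r N) (Bd L 8 3) 1 (.imp (.imp (ps Q) (.var B)) (.imp (.imp (ps Q') (.var B'))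
      (.imp (.imp (.var B) (.neg (.var B'))) (.imp (ps Q) (.neg (ps Q')))))) := by
    refine can_ax (ψ := Fm.imp (Fm.imp (Fm.var 0) (Fm.var 1)) (Fm.imp (Fm.imp (Fm.var 2) (Fm.var 3))
      (Fm.imp (Fm.imp (Fm.var 1) (Fm.neg (Fm.var 3))) (Fm.imp (Fm.var 0) (Fm.neg (Fm.var 2))))))
      (σ := fun n => match n with
        | 0 => ps Q
        | 1 => .var B
        | 2 => ps Q'
        | _ => .var B') (by simp [Fm.len]; omega) (fun v hv => ?_) ?_
    · show (!(!(v (ps Q)) || v (.var B)) || (!(!(v (ps Q')) || v (.var B')) ||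
        (!(!(v (.var B)) || !(v (.var B'))) || (!(v (ps Q)) || !(v (ps Q')))))) = true
      cases v (ps Q) <;> cases v (.var B) <;> cases v (ps Q') <;> cases v (.var B') <;> rfl
    · show Bd _ _ _ (Fo.imp (.imp (ps Q) (.var B)) (.imp (.imp (ps Q') (.var B'))
        (.imp (.imp (.var B) (.neg (.var B'))) (.imp (ps Q) (.neg (ps Q'))))))
      exact Bd_mono (Bd_imp (Bd_imp b1 (Bd_var B)) e2) (by omega) (by omega) (by omega)
  have q1 := can_mp p1 p4 (Bd_mono e2 (by omega) (by omega) (by omega))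
  have q2 := can_mp p2 q1 (Bd_mono e3 (by omega) (by omega) (by omega))
  have q3 := can_mp p3 q2 (Bd_mono e4 (by omega) (by omega) (by omega))
  exact can_mono q3 (by omega)

end Pool.Agent.H85.FW
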